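import Mathlib
import Pool.Agent.Lib.MP_fef6c2_gt.Plane

set_option autoImplicit false

open Pool.Agent.Lib.MP_fef6c2_gt

namespace Pool.Agent.Lib.MP_fef6c2_gt.Variants.ClassificationPlane

/-- A locally compact subset of the plane with connected complement that is neither compact nor
open is injectively rigid exactly when it is closed, connected and has bounded complement. -/
theorem result (X : Set (EuclideanSpace ℝ (Fin 2))) (hlc : LocallyCompactSpace X)
    (hns : IsConnected Xᶜ) (hnc : ¬ IsCompact X) (hno : ¬ IsOpen X) :
    (∀ f : X → EuclideanSpace ℝ (Fin 2), Continuous f → Function.Injective f →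
        Topology.IsEmbedding f) ↔
      (IsClosed X ∧ IsConnected X ∧ Bornology.IsBounded Xᶜ) := by
  constructor
  · intro hrig
    have h1 : IsClosed X ∧ Bornology.IsBounded Xᶜ := by
      by_contra hn
      obtain ⟨f, hf, hi, he⟩ := not_rigid_of_compl_connected one_lt_rank_plane hns hnc hno hn
      exact he (hrig f hf hi)
    refine ⟨h1.1, ⟨?_, ?_⟩, h1.2⟩
    · by_contra hne
      rw [Set.not_nonempty_iff_eq_empty] at hne
      exact hnc (hne ▸ isCompact_empty)
    · by_contra hX
      obtain ⟨f, hf, hi, he⟩ := not_rigid_of_disconnected one_lt_rank_plane h1.1 h1.2 hX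
      exact he (hrig f hf hi)
  · rintro ⟨h1, h2, h3⟩ f hf hi
    exact rigid_plane h1 h2.isPreconnected h3 f hf hi

end Pool.Agent.Lib.MP_fef6c2_gt.Variants.ClassificationPlane
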